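import Mathlib
import Pool.Agent.H160Z.Main

open Filter Topology

namespace Pool.Agent.Results.MP_06ac62_an.CInfinity

/-- The maximum modulus `M(r,f)`: the maximum of `|f|` on the circle `|z| = r`. -/
noncomputable def maxMod (f : ℂ → ℂ) (r : ℝ) : ℝ := ⨆ z : Metric.sphere (0:ℂ) r, ‖f z‖

/-- The minimum modulus `m_0(r,f)`: the minimum of `|f|` on the circle `|z| = r`. -/
noncomputable def minMod (f : ℂ → ℂ) (r : ℝ) : ℝ := ⨅ z : Metric.sphere (0:ℂ) r, ‖f z‖

/-- `a_f(r) = log M(r,f)`. -/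
noncomputable def logM (f : ℂ → ℂ) (r : ℝ) : ℝ := Real.log (maxMod f r)

/-- `b_f(r) = log m_0(r,f)` in the extended reals, with `log 0 = -∞`. -/
noncomputable def logMin (f : ℂ → ℂ) (r : ℝ) : EReal := ENNReal.log (ENNReal.ofReal (minMod f r))

/-- The order of `f`: the upper limit of `log a_f(r) / log r` as `r → ∞`. -/
noncomputable def order (f : ℂ → ℂ) : EReal :=
  limsup (fun r : ℝ => ((Real.log (logM f r) / Real.log r : ℝ) : EReal)) atTop

/-- `Λ_∞(f)`: the upper limit of `b_f(r) / (a_f(r) log log a_f(r))` as `r → ∞`. -/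
noncomputable def LamInf (f : ℂ → ℂ) : EReal :=
  limsup (fun r : ℝ => logMin f r /
    ((logM f r * Real.log (Real.log (logM f r)) : ℝ) : EReal)) atTop

/-- `C_∞`: the infimum of `Λ_∞(f)` over the entire functions `f` of infinite order. -/
noncomputable def CInf : EReal :=
  sInf {L : EReal | ∃ f : ℂ → ℂ, Differentiable ℂ f ∧ order f = ⊤ ∧ L = LamInf f}

/-- `C_∞ = -2`. -/
theorem result : CInf = (-2 : EReal) :=
  H160Z.C_inf_eq

end Pool.Agent.Results.MP_06ac62_an.CInfinity
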